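import Pool.Agent.Helper252_Enum.T1_ratio

set_option autoImplicit false

namespace Pool.Agent.Results.MP_5df73b_al.ZeroProportion

/-- `G` is integrable: it is isomorphic to the derived subgroup of some group `H` (of any
cardinality, in the universe `u`). -/
def Integrable.{u} (G : Type) [Group G] : Prop :=
  ∃ (H : Type u) (_ : Group H), Nonempty (commutator H ≃* G)

/-- Isomorphism of two group structures on `Fin N`. -/
def Isom (N : ℕ) (g h : Group (Fin N)) : Prop :=
  Nonempty (@MulEquiv (Fin N) (Fin N)
    (@Semigroup.toMul _ (@Monoid.toSemigroup _ (@DivInvMonoid.toMonoid _ (@Group.toDivInvMonoid _ g))))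
    (@Semigroup.toMul _ (@Monoid.toSemigroup _ (@DivInvMonoid.toMonoid _ (@Group.toDivInvMonoid _ h)))))

/-- The number of isomorphism classes of groups of order `N`. -/
noncomputable def numGroups (N : ℕ) : ℕ := Nat.card (Quot (Isom N))

/-- The number of isomorphism classes of integrable groups of order `N`. -/
noncomputable def numIntegrable.{u} (N : ℕ) : ℕ :=
  Nat.card {c : Quot (Isom N) // ∃ g : Group (Fin N), Quot.mk (Isom N) g = c ∧
    @Integrable.{u} (Fin N) g}

/-- For every prime `p` the proportion of integrable groups among the groups of order `p ^ n` tends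
to zero as `n` tends to infinity. -/
theorem result.{u} (p : ℕ) (hp : p.Prime) :
    Filter.Tendsto (fun n : ℕ => (numIntegrable.{u} (p ^ n) : ℝ) / (numGroups (p ^ n) : ℝ))
      Filter.atTop (nhds 0) :=
  Pool.Agent.Helper252_Enum.ratio_tendsto.{u} p hp

end Pool.Agent.Results.MP_5df73b_al.ZeroProportion
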